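import Pool.Agent.Work.MP_45c923_nt.Linear

/-!
# A linear upper bound for Waring's function: `G(k) ≤ 2^79 k` for all `k ≥ 1`
-/

set_option autoImplicit false

namespace Pool.Agent.Results.MP_45c923_nt.WaringLinear

open Pool.Agent.Work.MP_45c923_nt

theorem result (k : ℕ) (hk : 1 ≤ k) : ∃ m : ℕ, m ≤ 2 ^ 79 * k ∧
    ∃ n₀ : ℕ, ∀ n : ℕ, n₀ ≤ n → ∃ x : Fin m → ℕ, n = ∑ i, x i ^ k := by
  obtain ⟨v, h1, h2, h3⟩ := adm_linear (32 * k) (by omega)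
  obtain ⟨t, rfl⟩ : ∃ t, v = t + 1 := ⟨v - 1, by omega⟩
  obtain ⟨n₀, h⟩ := waring_of_adm (u := 2 ^ 73 * (32 * k)) h3 h3 (by nlinarith) (by omega)
    (by omega) (by omega) (by
      have a : ((t : ℝ) + 1) ≤ 2 ^ 34 * (32 * k) := by exact_mod_cast h2
      have b : (1 : ℝ) ≤ k := by exact_mod_cast hk
      have c : ((t : ℝ) + 1) ^ 2 ≤ (2 ^ 34 * (32 * k)) ^ 2 :=
        pow_le_pow_left₀ (by positivity) a 2
      rw [← mul_div_assoc, lt_div_iff₀ (by positivity)]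
      push_cast
      nlinarith)
  refine ⟨2 * (t + 1) + 2 ^ 73 * (32 * k), by omega, n₀, fun n hn => ?_⟩
  obtain ⟨x, hx⟩ := h n hn
  exact ⟨fun i => x i ^ 32, by simpa only [pow_mul] using hx⟩

end Pool.Agent.Results.MP_45c923_nt.WaringLinear
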